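import Pool.Agent.H295R2.T8

/-!
# The Mertens function is large at one of the points `x / h`, `h ≤ x ^ δ`, for every large `x`

Let `Θ` be the supremum of the real parts of the zeros of the Riemann zeta function in the critical strip. Classically
`|M(x)| ≥ x ^ (Θ - ε)` for SOME arbitrarily large `x`. Here, for every `δ > 0`, EVERY large `x` is close, on a
multiplicative scale, to such a place and the place can be found among the points `x / h` with an INTEGER `h ≤ x ^ δ`: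
the maximum of the `|M(x / h)|`, `1 ≤ h ≤ x ^ δ`, is `x ^ (Θ + o(1))`.

The theorem is the final theorem of the library development Pool.Agent.H295R2.
-/

set_option autoImplicit false

open Filter Topology

namespace Pool.Agent.Results.MP_a499ba_nt.MaximaAlongDilations

/-- The Mertens function: the sum of the Moebius function over the positive integers up to the real number `y`. -/
noncomputable def M (y : ℝ) : ℝ := ∑ k ∈ Finset.Icc 1 ⌊y⌋₊, (ArithmeticFunction.moebius k : ℝ)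

/-- The supremum of the real parts of the zeros of the zeta function in the critical strip. -/
noncomputable def Theta : ℝ :=
  sSup {t : ℝ | ∃ s : ℂ, riemannZeta s = 0 ∧ 0 < s.re ∧ s.re < 1 ∧ s.re = t}

/-- The maximum of `|M(x / h)|` over the integers `1 ≤ h ≤ x ^ δ`. -/
noncomputable def maximum (δ x : ℝ) : ℝ :=
  sSup {y : ℝ | ∃ h : ℕ, 1 ≤ h ∧ (h : ℝ) ≤ x ^ δ ∧ |M (x / h)| = y}

lemma M_eq : M = Pool.Agent.H295R2.Mx := by
  funext y
  rfl

lemma Theta_eq : Theta = Pool.Agent.H295R2.zetaSup := by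
  unfold Theta Pool.Agent.H295R2.zetaSup
  congr 1
  ext t
  constructor
  · rintro ⟨s, h1, h2, h3, h4⟩
    exact ⟨s, ⟨h1, h2, h3⟩, h4⟩
  · rintro ⟨s, ⟨h1, h2, h3⟩, h4⟩
    exact ⟨s, h1, h2, h3, h4⟩

lemma maximum_eq : maximum = Pool.Agent.H295R2.maxM := by
  funext δ x
  unfold maximum Pool.Agent.H295R2.maxM
  rw [M_eq]
  congr 1
  ext y
  constructor
  · rintro ⟨h, h1, h2, h3⟩
    exact ⟨h, h1, h2, h3.symm⟩
  · rintro ⟨h, h1, h2, h3⟩
    exact ⟨h, h1, h2, h3.symm⟩

/-- **Maxima of the Mertens function along integer dilations.** `1 / 2 ≤ Θ ≤ 1`, and for every real `0 < δ ≤ 1`: the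
maximum of `|M(x / h)|` over the integers `1 ≤ h ≤ x ^ δ` is `x ^ (Θ + o(1))` as `x → ∞` through all real numbers; in
particular, for all `ε > 0` and ALL large integers `n` there is an integer `1 ≤ h ≤ n ^ δ` with
`|M(n / h)| ≥ n ^ (Θ - ε)`. -/
theorem result : (1 / 2 ≤ Theta ∧ Theta ≤ 1) ∧ ∀ δ : ℝ, 0 < δ → δ ≤ 1 →
    Tendsto (fun x : ℝ => Real.log (maximum δ x) / Real.log x) atTop (𝓝 Theta) ∧
    ∀ ε : ℝ, 0 < ε → ∀ᶠ n : ℕ in atTop, ∃ h : ℕ, 1 ≤ h ∧ (h : ℝ) ≤ (n : ℝ) ^ δ ∧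
      (n : ℝ) ^ (Theta - ε) ≤ |M ((n : ℝ) / h)| := by
  rw [Theta_eq, maximum_eq, M_eq]
  exact ⟨⟨Pool.Agent.H295R2.half_le_zetaSup, Pool.Agent.H295R2.zetaSup_le_one⟩,
    fun δ hδ hδ1 => ⟨Pool.Agent.H295R2.mertens_limit hδ hδ1,
      fun ε hε => Pool.Agent.H295R2.mertens_local_lower hδ hδ1 hε⟩⟩

end Pool.Agent.Results.MP_a499ba_nt.MaximaAlongDilations
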