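import Mathlib
import Pool.Agent.X159.WM.Osc

/-!
Extreme values of `∑ μ(n)` and `∑ λ(n)` and of the same sums over the integers without prime factors
in a set `P`.
-/

set_option autoImplicit false

namespace Pool.Agent.Results.MP_a499ba_nt.SiftedSums

open Pool.Agent.X159.WM

theorem result :
    (∀ a g g' : ArithmeticFunction ℝ, g * g' = 1 → Wiener g → Wiener g' →
      osc (g * a) ≤ ENNReal.ofReal (wnorm g) * osc a ∧
      osc a ≤ ENNReal.ofReal (wnorm g') * osc (g * a) ∧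
      (Gonek a → 0 < osc (g * a) ∧ osc (g * a) < ⊤)) ∧
    (∀ P : Set ℕ, (∀ p ∈ P, p.Prime) →
      (Summable fun p : P => ((p : ℕ) : ℝ) ^ (-(1 / 2 : ℝ))) →
      Wiener (ind P) ∧
      osc (muP P) ≤ ENNReal.ofReal (wnorm (ind P)) * osc mu ∧
      osc mu ≤ ENNReal.ofReal (wnorm (ind P)) * osc (muP P) ∧
      osc (lamP P) ≤ ENNReal.ofReal (wnorm (ind P)) * osc lam ∧
      osc lam ≤ ENNReal.ofReal (wnorm (ind P)) * osc (lamP P) ∧
      (Gonek mu → 0 < osc (muP P) ∧ osc (muP P) < ⊤) ∧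
      (Gonek lam → 0 < osc (lamP P) ∧ osc (lamP P) < ⊤)) :=
  osc_main

end Pool.Agent.Results.MP_a499ba_nt.SiftedSums
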