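import Pool.Agent.X108.GD.Sq

/-!
# MP_a499ba_nt: Gonek's statements are decided at the perfect squares, and along generic dilates of one
sparse sequence

Gonek's statement for `M` holds if and only if it holds for `x` restricted to the perfect squares, or to
any other sequence whose gaps are `O(x^(1/2))`; the same for `L` and all summatory functions of
coefficients bounded by `1`.

Let `l n → ∞` be any sequence of positive numbers with `l (n + 1) / l n → 1` (for instance
`n ^ k` or `exp (n / log n)`). For all `t > 0` outside a meagre set the upper and lower limits of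
`S(t l_n) / F(t l_n)` are those of `S(x) / F(x)` over all real `x → ∞`, for `S = M`, `S = L` and every
other summatory function; the same holds for all joint limit points of `M(x/h) / F(x)`,
`L(x/h) / F(x)`, `h = 1, 2, 3, …`.
-/

set_option autoImplicit false

namespace Pool.Agent.Results.MP_a499ba_nt.SparseSequences

open Filter Topology

/-- `F(x) = x^(1/2) (log log log x)^(5/4)` -/
noncomputable def F (x : ℝ) : ℝ := Real.sqrt x * Real.log (Real.log (Real.log x)) ^ ((5 : ℝ) / 4)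

/-- `S(x) = ∑_{n ≤ x} a(n)` -/
noncomputable def S (a : ℕ → ℝ) (x : ℝ) : ℝ := ∑ n ∈ Finset.Icc 1 ⌊x⌋₊, a n

/-- the Moebius function, so that `S mu = M` -/
noncomputable def mu (n : ℕ) : ℝ := ((ArithmeticFunction.moebius n : ℤ) : ℝ)

/-- the Liouville function, so that `S lam = L` -/
noncomputable def lam (n : ℕ) : ℝ := (-1) ^ (ArithmeticFunction.cardFactors n)

/-- Gonek's statement for the summatory function of `a` (Q1 for `mu`, Q2 for `lam`) -/
def Gonek (a : ℕ → ℝ) : Prop := ∃ B : ℝ, 0 < B ∧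
  liminf (fun x : ℝ => ((S a x / F x : ℝ) : EReal)) atTop = ((-B : ℝ) : EReal) ∧
  limsup (fun x : ℝ => ((S a x / F x : ℝ) : EReal)) atTop = ((B : ℝ) : EReal)

/-- Gonek's statement along the sequence `x` -/
def GonekAlong (a : ℕ → ℝ) (x : ℕ → ℝ) : Prop := ∃ B : ℝ, 0 < B ∧
  liminf (fun n : ℕ => ((S a (x n) / F (x n) : ℝ) : EReal)) atTop = ((-B : ℝ) : EReal) ∧
  limsup (fun n : ℕ => ((S a (x n) / F (x n) : ℝ) : EReal)) atTop = ((B : ℝ) : EReal)

/-- the vector of all `M(x/h) / F(x)` and `L(x/h) / F(x)`, `h = 1, 2, 3, …` -/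
noncomputable def vec (x : ℝ) (h : ℕ) : ℝ × ℝ := (S mu (x / ((h : ℝ) + 1)) / F x, S lam (x / ((h : ℝ) + 1)) / F x)

/-- positive numbers tending to infinity with ratios of consecutive terms tending to `1` -/
structure Slow (l : ℕ → ℝ) : Prop where
  pos : ∀ n, 0 < l n
  lim : Tendsto l atTop atTop
  ratio : Tendsto (fun n => l (n + 1) / l n) atTop (𝓝 1)

lemma right (a : ℕ → ℝ) : ∀ᶠ x in atTop, ContinuousWithinAt (fun x : ℝ => S a x / F x) (Set.Ici x) x := by
  have h := X108.GD.quot_right a 1 one_pos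
  simp only [div_one] at h
  exact h

lemma right_vec : ∀ᶠ x in atTop, ContinuousWithinAt vec (Set.Ici x) x := by
  filter_upwards [X108.GD.F_cont] with x hx
  rw [continuousWithinAt_pi]
  intro h
  have h0 : (0 : ℝ) < (h : ℝ) + 1 := by positivity
  exact ((X108.GD.sum_right mu _ h0 hx.2.2).div hx.1.continuousWithinAt hx.2.1).prodMk
    ((X108.GD.sum_right lam _ h0 hx.2.2).div hx.1.continuousWithinAt hx.2.1)

lemma freq_pos : ∃ᶠ t : ℝ in residual ℝ, 0 < t := by
  intro h
  have hd : Dense {t : ℝ | ¬ 0 < t} := dense_of_mem_residual h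
  obtain ⟨t, ht1, ht2⟩ := hd.exists_mem_open isOpen_Ioi ⟨(1 : ℝ), (Set.mem_Ioi.2 one_pos : (1 : ℝ) ∈ Set.Ioi 0)⟩
  exact ht1 ht2

lemma along_iff {a : ℕ → ℝ} (ha : ∀ n, |a n| ≤ 1) {x : ℕ → ℝ} (hx : Tendsto x atTop atTop)
    (hC : ∃ C : ℝ, ∀ n, x (n + 1) ≤ x n + C * Real.sqrt (x n)) : Gonek a ↔ GonekAlong a x := by
  obtain ⟨C, hC⟩ := hC
  constructor
  · rintro ⟨B, hB, e1, e2⟩
    exact ⟨B, hB, (X108.GD.liminf_iff ha hx hC hB).1 e1, (X108.GD.limsup_iff ha hx hC hB).1 e2⟩
  · rintro ⟨B, hB, e1, e2⟩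
    exact ⟨B, hB, (X108.GD.liminf_iff ha hx hC hB).2 e1, (X108.GD.limsup_iff ha hx hC hB).2 e2⟩

lemma mu_le (n : ℕ) : |mu n| ≤ 1 := by
  unfold mu
  exact_mod_cast ArithmeticFunction.abs_moebius_le_one

lemma lam_le (n : ℕ) : |lam n| ≤ 1 := by
  unfold lam
  rw [abs_neg_one_pow]

/-- the perfect squares have gaps `O(√x)` -/
lemma squares : Tendsto (fun n : ℕ => ((n : ℝ) + 1) ^ 2) atTop atTop ∧
    ∃ C : ℝ, ∀ n : ℕ, (((n + 1 : ℕ) : ℝ) + 1) ^ 2 ≤ ((n : ℝ) + 1) ^ 2 + C * Real.sqrt (((n : ℝ) + 1) ^ 2) := by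
  constructor
  · exact (tendsto_pow_atTop (by norm_num)).comp (tendsto_atTop_add_const_right _ _ tendsto_natCast_atTop_atTop)
  · refine ⟨3, fun n => ?_⟩
    have hn : (0 : ℝ) ≤ n := Nat.cast_nonneg n
    rw [Real.sqrt_sq (by positivity)]
    push_cast
    nlinarith

/-- (1) Gonek's statement for `M` (Q1) holds if and only if it holds along the perfect squares, and the
same for `L` (Q2). (2) The same for every real arithmetic function bounded by `1` and every sequence
`x_n → ∞` with `x_(n+1) ≤ x_n + C x_n^(1/2)`. (3) Let `l` be a positive sequence with `l n → ∞` and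
`l (n + 1) / l n → 1`. For every real arithmetic function `a` there is a residual set of `t` such that
for the `t > 0` in it the lower and upper limits of `S(t l_n) / F(t l_n)` equal those of `S(x) / F(x)`,
`x → ∞` through the reals. (4) For such `l`, Gonek's statement for `a` holds if and only if it holds
along `(t l_n)` for all `t > 0` in a residual set, and if and only if it holds along `(t l_n)` for a
non-meagre set of `t > 0`. (5) For such `l` and all `t > 0` in a residual set the vector of all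
`M(x/h) / F(x)`, `L(x/h) / F(x)` (`h ≥ 1`) has the same limit points along `x = t l_n` as for real
`x → ∞`. -/
theorem result :
    ((Gonek mu ↔ GonekAlong mu fun n => ((n : ℝ) + 1) ^ 2) ∧
      (Gonek lam ↔ GonekAlong lam fun n => ((n : ℝ) + 1) ^ 2)) ∧
    (∀ a : ℕ → ℝ, (∀ n, |a n| ≤ 1) → ∀ x : ℕ → ℝ, Tendsto x atTop atTop →
      (∃ C : ℝ, ∀ n, x (n + 1) ≤ x n + C * Real.sqrt (x n)) → (Gonek a ↔ GonekAlong a x)) ∧
    ∀ l : ℕ → ℝ, Slow l →
    (∀ a : ℕ → ℝ, ∀ᶠ t in residual ℝ, 0 < t →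
      liminf (fun n : ℕ => ((S a (t * l n) / F (t * l n) : ℝ) : EReal)) atTop =
        liminf (fun x : ℝ => ((S a x / F x : ℝ) : EReal)) atTop ∧
      limsup (fun n : ℕ => ((S a (t * l n) / F (t * l n) : ℝ) : EReal)) atTop =
        limsup (fun x : ℝ => ((S a x / F x : ℝ) : EReal)) atTop) ∧
    (∀ a : ℕ → ℝ, (Gonek a ↔ ∀ᶠ t in residual ℝ, 0 < t → GonekAlong a (fun n => t * l n)) ∧
      (Gonek a ↔ ∃ᶠ t in residual ℝ, 0 < t ∧ GonekAlong a (fun n => t * l n))) ∧
    (∀ᶠ t in residual ℝ, 0 < t → ∀ y : ℕ → ℝ × ℝ,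
      MapClusterPt y atTop (fun n : ℕ => vec (t * l n)) ↔ MapClusterPt y atTop vec) := by
  refine ⟨⟨along_iff mu_le squares.1 squares.2, along_iff lam_le squares.1 squares.2⟩,
    fun a ha x hx hC => along_iff ha hx hC, ?_⟩
  intro l hl
  have h1 : ∀ a : ℕ → ℝ, ∀ᶠ t in residual ℝ, 0 < t →
      liminf (fun n : ℕ => ((S a (t * l n) / F (t * l n) : ℝ) : EReal)) atTop =
        liminf (fun x : ℝ => ((S a x / F x : ℝ) : EReal)) atTop ∧
      limsup (fun n : ℕ => ((S a (t * l n) / F (t * l n) : ℝ) : EReal)) atTop =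
        limsup (fun x : ℝ => ((S a x / F x : ℝ) : EReal)) atTop := by
    intro a
    filter_upwards [X108.GD.generic_liminf _ (right a) l hl.pos hl.lim hl.ratio,
      X108.GD.generic_limsup _ (right a) l hl.pos hl.lim hl.ratio] with t g1 g2 h0
    exact ⟨g1 h0, g2 h0⟩
  have h2 : ∀ a : ℕ → ℝ, Gonek a → ∀ᶠ t in residual ℝ, 0 < t → GonekAlong a (fun n => t * l n) := by
    rintro a ⟨B, hB, e1, e2⟩
    filter_upwards [h1 a] with t ht h0
    obtain ⟨g1, g2⟩ := ht h0
    exact ⟨B, hB, g1.trans e1, g2.trans e2⟩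
  have h3 : ∀ a : ℕ → ℝ, (∃ᶠ t in residual ℝ, 0 < t ∧ GonekAlong a (fun n => t * l n)) → Gonek a := by
    intro a h
    obtain ⟨t, ⟨h0, B, hB, e1, e2⟩, ht⟩ := (h.and_eventually (h1 a)).exists
    obtain ⟨g1, g2⟩ := ht h0
    exact ⟨B, hB, g1.symm.trans e1, g2.symm.trans e2⟩
  have h4 : ∀ a : ℕ → ℝ, (∀ᶠ t in residual ℝ, 0 < t → GonekAlong a (fun n => t * l n)) →
      ∃ᶠ t in residual ℝ, 0 < t ∧ GonekAlong a (fun n => t * l n) := by
    intro a h
    exact (freq_pos.and_eventually h).mono fun t ht => ⟨ht.1, ht.2 ht.1⟩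
  refine ⟨h1, fun a => ⟨⟨h2 a, fun h => h3 a (h4 a h)⟩, ⟨fun h => h4 a (h2 a h), h3 a⟩⟩, ?_⟩
  exact X108.GD.generic_cluster vec right_vec l hl.pos hl.lim hl.ratio

end Pool.Agent.Results.MP_a499ba_nt.SparseSequences
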